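import Mathlib

set_option autoImplicit false

namespace Pool.Agent.H.MP_a23033_al

open MonoidAlgebra

/-- the integral Heisenberg group, triples standing for x^i y^j z^k with y x = z x y -/
@[ext] structure G : Type where
  i : ℤ
  j : ℤ
  k : ℤ
  deriving DecidableEq

instance : Mul G := ⟨fun a b => ⟨a.i + b.i, a.j + b.j, a.k + b.k + a.j * b.i⟩⟩
instance : One G := ⟨⟨0, 0, 0⟩⟩
instance : Inv G := ⟨fun a => ⟨-a.i, -a.j, -a.k + a.j * a.i⟩⟩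

@[simp] lemma mul_i (a b : G) : (a * b).i = a.i + b.i := rfl
@[simp] lemma mul_j (a b : G) : (a * b).j = a.j + b.j := rfl
@[simp] lemma mul_k (a b : G) : (a * b).k = a.k + b.k + a.j * b.i := rfl
@[simp] lemma one_i : (1 : G).i = 0 := rfl
@[simp] lemma one_j : (1 : G).j = 0 := rfl
@[simp] lemma one_k : (1 : G).k = 0 := rfl
@[simp] lemma inv_i (a : G) : (a⁻¹).i = -a.i := rfl
@[simp] lemma inv_j (a : G) : (a⁻¹).j = -a.j := rfl
@[simp] lemma inv_k (a : G) : (a⁻¹).k = -a.k + a.j * a.i := rfl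

instance : Group G := Group.ofLeftAxioms
  (fun a b c => by ext <;> simp <;> ring)
  (fun a => by ext <;> simp)
  (fun a => by ext <;> simp)

def gx : G := ⟨1, 0, 0⟩
def gy : G := ⟨0, 1, 0⟩

lemma zpow_i (g : G) (n : ℤ) : (g ^ n).i = n * g.i := by
  induction n using Int.induction_on with
  | zero => simp
  | succ n ih => rw [zpow_add_one, mul_i, ih]; ring
  | pred n ih => rw [zpow_sub_one, mul_i, ih, inv_i]; ring

lemma zpow_j (g : G) (n : ℤ) : (g ^ n).j = n * g.j := by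
  induction n using Int.induction_on with
  | zero => simp
  | succ n ih => rw [zpow_add_one, mul_j, ih]; ring
  | pred n ih => rw [zpow_sub_one, mul_j, ih, inv_j]; ring

lemma zpow_k (g : G) (h : g.i = 0 ∨ g.j = 0) (n : ℤ) : (g ^ n).k = n * g.k := by
  induction n using Int.induction_on with
  | zero => simp
  | succ n ih => rw [zpow_add_one, mul_k, ih, zpow_j]; rcases h with h | h <;> rw [h] <;> ring
  | pred n ih =>
    rw [zpow_sub_one, mul_k, ih, zpow_j, inv_k, inv_i]; rcases h with h | h <;> rw [h] <;> ring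

/-- the endomorphism sending x to a and y to b -/
def be (a b : G) : G →* G := MonoidHom.mk'
  (fun g => a ^ g.i * b ^ g.j * ⟨0, 0, (b.j * a.i - a.j * b.i) * g.k⟩)
  (fun g h => by
    simp only [mul_i, mul_j, mul_k, zpow_add]
    ext <;> simp only [mul_i, mul_j, mul_k, zpow_i, zpow_j] <;> ring)

lemma be_apply (a b g : G) :
    be a b g = a ^ g.i * b ^ g.j * ⟨0, 0, (b.j * a.i - a.j * b.i) * g.k⟩ := rfl

lemma be_x (a b : G) : be a b gx = a := by ext <;> simp [be_apply, gx]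
lemma be_y (a b : G) : be a b gy = b := by ext <;> simp [be_apply, gy]

lemma gen (K : Subgroup G) (hx : gx ∈ K) (hy : gy ∈ K) (g : G) : g ∈ K := by
  have h : g = gx ^ g.i * gy ^ g.j * (gy * gx * gy⁻¹ * gx⁻¹) ^ g.k := by
    have e : gy * gx * gy⁻¹ * gx⁻¹ = ⟨0, 0, 1⟩ := by decide
    rw [e]
    ext
    · simp [zpow_i, gx, gy]
    · simp [zpow_j, gx, gy]
    · simp [zpow_i, zpow_j, zpow_k, gx, gy]
  rw [h]
  exact K.mul_mem (K.mul_mem (K.zpow_mem hx _) (K.zpow_mem hy _))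
    (K.zpow_mem (K.mul_mem (K.mul_mem (K.mul_mem hy hx) (K.inv_mem hy)) (K.inv_mem hx)) _)

lemma be_id : be gx gy = MonoidHom.id G := by
  ext1 g
  exact gen ((be gx gy).eqLocus (MonoidHom.id G)) (be_x _ _) (be_y _ _) g

def Le (g h : G) : Prop := g.j < h.j ∨ g.j = h.j ∧ (g.i < h.i ∨ g.i = h.i ∧ g.k ≤ h.k)

def key (g : G) : Lex (ℤ × Lex (ℤ × ℤ)) := toLex (g.j, toLex (g.i, g.k))

lemma key_le (g h : G) : key g ≤ key h ↔ Le g h := by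
  simp [key, Le, Prod.Lex.toLex_le_toLex]

lemma ex_max (A : Finset G) (hA : A.Nonempty) : ∃ a ∈ A, ∀ b ∈ A, Le b a := by
  obtain ⟨a, ha, h⟩ := A.exists_max_image key hA
  exact ⟨a, ha, fun b hb => (key_le _ _).mp (h b hb)⟩

lemma ex_min (A : Finset G) (hA : A.Nonempty) : ∃ a ∈ A, ∀ b ∈ A, Le a b := by
  obtain ⟨a, ha, h⟩ := A.exists_min_image key hA
  exact ⟨a, ha, fun b hb => (key_le _ _).mp (h b hb)⟩

lemma uq (a b a0 b0 : G) (h1 : Le a a0) (h2 : Le b b0) (h : a * b = a0 * b0) :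
    a = a0 ∧ b = b0 := by
  have e1 := congrArg G.i h
  have e2 := congrArg G.j h
  have e3 := congrArg G.k h
  simp only [mul_i, mul_j, mul_k] at e1 e2 e3
  unfold Le at h1 h2
  have f1 : a.j = a0.j := by omega
  have f2 : b.j = b0.j := by omega
  have f3 : a.i = a0.i := by omega
  have f4 : b.i = b0.i := by omega
  rw [f1, f4] at e3
  constructor <;> ext <;> omega

instance : UniqueProds G where
  uniqueMul_of_nonempty {A B} hA hB := by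
    obtain ⟨a, ha, h1⟩ := ex_max A hA
    obtain ⟨b, hb, h2⟩ := ex_max B hB
    exact ⟨a, ha, b, hb, fun c d hc hd h => uq _ _ _ _ (h1 c hc) (h2 d hd) h⟩

abbrev S : Type := MonoidAlgebra (ZMod 2) G

lemma homog (n s : S) (h0 : n * s ≠ 0) (h : ∀ g ∈ (n * s).coeff.support, g.j = 0) :
    ∃ d : ℤ, ∀ g ∈ n.coeff.support, g.j = d := by
  have hn : n.coeff.support.Nonempty := by
    rw [Finsupp.support_nonempty_iff, Ne, coeff_eq_zero]; exact left_ne_zero_of_mul h0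
  have hs : s.coeff.support.Nonempty := by
    rw [Finsupp.support_nonempty_iff, Ne, coeff_eq_zero]; exact right_ne_zero_of_mul h0
  have hh : ∀ a ∈ n.coeff.support, ∀ b ∈ s.coeff.support,
      UniqueMul n.coeff.support s.coeff.support a b → a.j + b.j = 0 := by
    intro a ha b hb hu
    refine h (a * b) ?_
    rw [Finsupp.mem_support_iff] at ha hb ⊢
    rw [coeff_mul_mul_of_uniqueMul hu]
    exact mul_ne_zero ha hb
  obtain ⟨a, ha, h1⟩ := ex_max _ hn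
  obtain ⟨b, hb, h2⟩ := ex_max _ hs
  obtain ⟨a', ha', h3⟩ := ex_min _ hn
  obtain ⟨b', hb', h4⟩ := ex_min _ hs
  have e1 := hh a ha b hb fun c d hc hd h => uq _ _ _ _ (h1 c hc) (h2 d hd) h
  have e2 := hh a' ha' b' hb' fun c d hc hd h => by
    have := uq _ _ _ _ (h3 c hc) (h4 d hd) h.symm
    exact ⟨this.1.symm, this.2.symm⟩
  refine ⟨a.j, fun g hg => ?_⟩
  have f1 := h1 g hg
  have f2 := h3 g hg
  have f3 := h2 b' hb'
  unfold Le at f1 f2 f3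
  omega

noncomputable def o (g : G) : S := single g 1

lemma o_mul (g h : G) : o (g * h) = o g * o h := by simp [o, single_mul_single]
lemma o_one : o 1 = 1 := rfl

noncomputable def P (l : List G) : S := (l.map o).sum

lemma P_nil : P [] = 0 := rfl
lemma P_cons (g : G) (l : List G) : P (g :: l) = o g + P l := by simp [P]
lemma P_app (l m : List G) : P (l ++ m) = P l + P m := by simp [P]

def lm (l m : List G) : List G := l.flatMap fun a => m.map fun b => a * b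

lemma P_map (a : G) (m : List G) : P (m.map fun b => a * b) = o a * P m := by
  induction m with
  | nil => simp [P_nil]
  | cons b m ih => rw [List.map_cons, P_cons, P_cons, ih, o_mul, mul_add]

lemma P_lm (l m : List G) : P (lm l m) = P l * P m := by
  induction l with
  | nil => simp [lm, P_nil]
  | cons a l ih =>
    have : lm (a :: l) m = (m.map fun b => a * b) ++ lm l m := by simp [lm]
    rw [this, P_app, P_map, ih, P_cons, add_mul]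

lemma P_coeff (l : List G) (g : G) : (P l).coeff g = (l.count g : ZMod 2) := by
  induction l with
  | nil => simp [P_nil]
  | cons a l ih =>
    rw [P_cons, coeff_add, Finsupp.add_apply, ih, List.count_cons, o, coeff_single,
      Finsupp.single_apply]
    by_cases h : a = g <;> simp [h, add_comm]

lemma add_self (s : S) : s + s = 0 := by
  ext g
  simp [CharTwo.add_self_eq_zero]

lemma P_eq (l m : List G) (h : ∀ g ∈ l ++ m, l.count g % 2 = m.count g % 2) : P l = P m := by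
  ext g
  rw [P_coeff, P_coeff]
  by_cases hg : g ∈ l ++ m
  · exact (ZMod.natCast_eq_natCast_iff' _ _ 2).mpr (h g hg)
  · rw [List.mem_append, not_or] at hg
    rw [List.count_eq_zero_of_not_mem hg.1, List.count_eq_zero_of_not_mem hg.2]

def lp : List G := [⟨0, 0, 0⟩, ⟨0, 1, 0⟩, ⟨0, 2, 0⟩, ⟨1, 1, 2⟩, ⟨1, 2, 1⟩]
def lq : List G := [⟨0, 1, 0⟩, ⟨1, 1, 1⟩, ⟨1, 1, 2⟩, ⟨2, 1, 3⟩]
def lu1 : List G := [⟨0, 0, 0⟩, ⟨0, 1, 0⟩, ⟨0, 2, 2⟩, ⟨0, 3, 3⟩, ⟨0, 3, 4⟩, ⟨0, 4, 0⟩, ⟨0, 4, 1⟩, ⟨0, 4, 2⟩, ⟨0, 4, 4⟩, ⟨0, 5, 1⟩, ⟨0, 5, 2⟩, ⟨0, 6, 2⟩, ⟨1, 1, 2⟩, ⟨1, 2, 1⟩, ⟨1, 2, 2⟩, ⟨1, 2, 4⟩, ⟨1, 3, 5⟩, ⟨1, 3, 6⟩, ⟨1, 4, 1⟩, ⟨1, 4, 3⟩, ⟨1, 4, 4⟩, ⟨1, 4, 5⟩, ⟨1, 5, 1⟩, ⟨1, 5, 2⟩, ⟨1, 5, 3⟩, ⟨1, 5, 4⟩, ⟨1, 6, 2⟩, ⟨1, 6, 3⟩, ⟨2, 3, 3⟩, ⟨2, 3, 4⟩, ⟨2, 3, 5⟩, ⟨2, 3, 6⟩, ⟨2, 4, 3⟩, ⟨2, 4, 5⟩, ⟨2, 5, 3⟩, ⟨2, 5, 4⟩, ⟨2, 6, 3⟩]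
def lv1 : List G := [⟨0, 1, 2⟩, ⟨0, 2, 0⟩, ⟨0, 2, 2⟩, ⟨0, 2, 3⟩, ⟨0, 2, 4⟩, ⟨0, 3, 0⟩, ⟨0, 3, 1⟩, ⟨0, 3, 3⟩, ⟨0, 4, 0⟩, ⟨0, 4, 3⟩, ⟨0, 5, 0⟩, ⟨0, 5, 2⟩, ⟨0, 5, 4⟩, ⟨0, 6, 1⟩, ⟨0, 7, 2⟩, ⟨1, 3, 3⟩, ⟨1, 3, 4⟩, ⟨1, 3, 5⟩, ⟨1, 3, 6⟩, ⟨1, 4, 3⟩, ⟨1, 4, 4⟩, ⟨1, 4, 6⟩, ⟨1, 4, 7⟩, ⟨1, 5, 3⟩, ⟨1, 5, 6⟩, ⟨1, 6, 3⟩, ⟨1, 6, 4⟩, ⟨1, 6, 5⟩, ⟨1, 7, 4⟩]
def lr2 : List G := [⟨0, 0, 0⟩, ⟨1, 0, 0⟩, ⟨1, 0, 1⟩, ⟨1, 0, 2⟩, ⟨2, 0, 1⟩, ⟨2, 0, 2⟩, ⟨2, 0, 3⟩, ⟨3, 0, 3⟩]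
def lv2 : List G := [⟨0, -1, 0⟩, ⟨0, 0, 0⟩, ⟨0, 1, 0⟩, ⟨1, -1, -1⟩, ⟨1, 0, 1⟩, ⟨1, 0, 2⟩, ⟨1, 1, 2⟩, ⟨1, 1, 3⟩, ⟨2, 0, 3⟩, ⟨2, 1, 5⟩]
def lu : List G := [⟨0, 0, 0⟩, ⟨0, 1, 1⟩, ⟨0, 1, 2⟩, ⟨0, 1, 3⟩, ⟨0, 2, 1⟩, ⟨0, 2, 2⟩, ⟨0, 2, 3⟩, ⟨1, 0, 1⟩, ⟨1, 0, 2⟩, ⟨1, 1, 1⟩, ⟨1, 1, 2⟩, ⟨1, 1, 3⟩, ⟨1, 1, 4⟩, ⟨1, 1, 5⟩, ⟨1, 2, 1⟩, ⟨1, 2, 3⟩, ⟨1, 2, 4⟩, ⟨2, 0, 3⟩, ⟨2, 1, 4⟩, ⟨2, 2, 2⟩, ⟨3, 1, 5⟩, ⟨3, 2, 4⟩]
def lv : List G := [⟨0, -1, 0⟩, ⟨0, 0, 0⟩, ⟨0, 0, 1⟩, ⟨0, 0, 2⟩, ⟨0, 0, 3⟩, ⟨0, 1, 0⟩, ⟨0, 3, 1⟩, ⟨0, 3, 2⟩, ⟨0, 3, 3⟩, ⟨1, 0, 1⟩, ⟨1, 0, 3⟩, ⟨1, 1, 0⟩, ⟨1, 1, 5⟩, ⟨1, 2, 2⟩, ⟨1, 2, 4⟩, ⟨1, 2, 5⟩, ⟨1, 2, 6⟩, ⟨1, 3, 3⟩, ⟨1, 3, 5⟩, ⟨2, 1, 5⟩, ⟨2, 2, 4⟩, ⟨2, 2, 7⟩, ⟨2, 3, 6⟩]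

lemma id1 : P lp * P lu1 + P lq * P lv1 = 1 := by
  rw [← P_lm, ← P_lm, ← P_app]
  exact (P_eq _ [1] (by decide +kernel)).trans (by simp [P, o_one])

lemma id2 : P lp * P lr2 + P lq * P lv2 = 0 := by
  rw [← P_lm, ← P_lm, ← P_app]
  exact P_eq _ [] (by decide +kernel)

lemma id3 : P lp * P lu + P lq * P lv = 0 := by
  rw [← P_lm, ← P_lm, ← P_app]
  exact P_eq _ [] (by decide +kernel)

lemma u1_ne : P lu1 ≠ 0 := by
  intro h
  have := P_coeff lu1 1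
  rw [h] at this
  revert this
  simp only [coeff_zero, Finsupp.zero_apply]
  decide +kernel

/-- homogeneous component in the y-degree -/
noncomputable def Cp (d : ℤ) (s : S) : S := ofCoeff (s.coeff.filter fun g => g.j = d)

lemma Cp_add (d : ℤ) (s t : S) : Cp d (s + t) = Cp d s + Cp d t := by
  simp [Cp, Finsupp.filter_add]

lemma Cp_o (d : ℤ) (a : G) (s : S) : Cp d (o a * s) = o a * Cp (d - a.j) s := by
  ext g
  simp only [Cp, o, Finsupp.filter_apply, coeff_single_mul_apply, mul_j, inv_j, one_mul]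
  congr 1
  apply propext
  constructor <;> intro h <;> omega

lemma Cp_hom (d e : ℤ) (s : S) (h : ∀ g ∈ s.coeff.support, g.j = e) :
    Cp d s = if d = e then s else 0 := by
  ext g
  by_cases hg : g ∈ s.coeff.support
  · have := h g hg
    by_cases hd : d = e
    · simp [Cp, this, hd]
    · simp [Cp, this, hd, Ne.symm hd]
  · rw [Finsupp.notMem_support_iff] at hg
    by_cases hd : d = e <;> simp [Cp, Finsupp.filter_apply, hg, hd]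

noncomputable def ph : S →+ ZMod 2 :=
  (Finsupp.liftAddHom fun g : G => if g.j = 0 ∧ g.k = 0 then AddMonoidHom.id (ZMod 2) else 0 :
    (G →₀ ZMod 2) →+ ZMod 2).comp coeffAddEquiv.toAddMonoidHom

lemma ph_single (g : G) (c : ZMod 2) : ph (single g c) = if g.j = 0 ∧ g.k = 0 then c else 0 := by
  by_cases h : g.j = 0 ∧ g.k = 0 <;> simp [ph, coeffAddEquiv, h]

lemma ph_x (s : S) : ph (o gx * s) = ph s := by
  induction s using MonoidAlgebra.induction_linear with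
  | zero => simp
  | add f g hf hg => rw [mul_add, map_add, map_add, hf, hg]
  | single g c => simp [o, single_mul_single, ph_single, gx]

lemma ph_P (l : List G) : ph (P l) = (l.countP (fun g => g.j = 0 ∧ g.k = 0) : ZMod 2) := by
  induction l with
  | nil => simp [P_nil]
  | cons a l ih =>
    rw [P_cons, map_add, ih, List.countP_cons, o, ph_single]
    by_cases h : a.j = 0 ∧ a.k = 0
    · simp [h, add_comm]
    · simp only [h]; simp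

theorem nonfree (n n' : S) (h0 : P lp * n + P lq * n' = 0)
    (h : ∀ u v : S, P lp * u + P lq * v = 0 → ∃ s, u = n * s) : False := by
  obtain ⟨s, hs⟩ := h _ _ id2
  obtain ⟨s', hs'⟩ := h _ _ id3
  obtain ⟨d, hd⟩ := homog n s (by
      rw [← hs]
      intro h1
      have := P_coeff lr2 1
      rw [h1] at this
      revert this
      simp only [coeff_zero, Finsupp.zero_apply]
      decide +kernel) (by
      intro g hg
      rw [← hs, Finsupp.mem_support_iff, P_coeff] at hg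
      have h1 : g ∈ lr2 := by
        by_contra h2
        rw [List.count_eq_zero_of_not_mem h2] at hg
        exact hg rfl
      have h2 : ∀ g ∈ lr2, g.j = 0 := by decide
      exact h2 g h1)
  have h1 := congrArg (Cp (d + 1)) h0
  have hz : Cp (d + 1) 0 = 0 := by simp [Cp, Finsupp.filter_zero]
  simp only [lp, lq, P_cons, P_nil, add_zero, add_mul, Cp_add, Cp_o, Cp_hom _ _ _ hd, hz] at h1
  have e1 : d + 1 ≠ d := by omega
  have e2 : d + 1 - 2 ≠ d := by omega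
  simp only [sub_zero, add_sub_cancel_right, e1, e2, if_true, if_false, mul_zero, add_zero,
    zero_add] at h1
  obtain ⟨t, ht⟩ : ∃ t, t = Cp d n' := ⟨_, rfl⟩
  rw [← ht] at h1
  have h2 : P [⟨0, 1, 0⟩, ⟨1, 1, 2⟩] * (n + P [gx, 1] * t) = 0 := by
    rw [mul_add, ← mul_assoc, ← P_lm, P_eq (lm _ _) lq (by decide +kernel), ← h1]
    simp only [lq, P_cons, P_nil, add_zero, add_mul]
  have h3 : P [⟨0, 1, 0⟩, ⟨1, 1, 2⟩] ≠ 0 := by
    intro h1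
    have := P_coeff [⟨0, 1, 0⟩, ⟨1, 1, 2⟩] ⟨0, 1, 0⟩
    rw [h1] at this
    revert this
    simp only [coeff_zero, Finsupp.zero_apply]
    decide +kernel
  have h4 : n = P [gx, 1] * t := by
    have := (mul_eq_zero.mp h2).resolve_left h3
    rw [← add_zero n, ← add_self (P [gx, 1] * t), ← add_assoc, this, zero_add]
  have h5 := congrArg ph hs'
  rw [h4, ph_P, P_cons, P_cons, P_nil, add_zero, o_one, mul_assoc, add_mul, one_mul, map_add, ph_x,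
    CharTwo.add_self_eq_zero] at h5
  revert h5
  decide +kernel

end Pool.Agent.H.MP_a23033_al
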